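import Pool.Agent.X308.Ci.Final

/-!
# Curves on very general complete intersections: from hypersurfaces to coprime degrees
-/

set_option autoImplicit false

namespace Pool.Agent.Results.MP_8dbee4_ag.CoprimeDegrees

open Pool.Agent.X308.Ci

/-- **Theorem.** (A) The question for hypersurfaces (`r = 1`) in infinitely many dimensions `n` is
equivalent to the question for all complete intersections (all `n` and `r`) with pairwise coprime
degrees. (B) The question for `r` equations in dimension `n + 1` implies the question for `r`
equations in dimension `n`. (C) It also implies, for `r + 1` equations in dimension `n`, that the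
product of the degrees divides `gcd (d_1, …, d_(r+1)) * deg C` for all curves `C`. -/
theorem result :
    ((∀ n, ∃ n', n ≤ n' ∧ Question n' 1) ↔ ∀ n r, ∃ D : ℕ, ∀ d : Fin r → ℕ, (∀ i, D < d i) →
      Pairwise (Function.onFun Nat.Coprime d) → Divisible (n + r) d (∏ i, d i) 1) ∧
    (∀ n r, Question (n + 1) r → Question n r) ∧
    (∀ n r, Question (n + 1) r → ∃ D : ℕ, ∀ d : Fin (r + 1) → ℕ, (∀ i, D < d i) →
      Divisible (n + (r + 1)) d (∏ i, d i) (Finset.univ.gcd d)) :=
  ⟨infinitely_many_iff, fun _ _ h => h.pred, fun _ _ h => question_succ h⟩

end Pool.Agent.Results.MP_8dbee4_ag.CoprimeDegrees
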